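import Pool.Agent.Y928.LS.Short

/-!
# Lehmer numbers in sets with few elements in residue classes, and in arithmetic progressions
-/

set_option autoImplicit false

namespace Pool.Agent.L0h61.LA

open Finset
open Pool.Agent.H95R2.Leh Pool.Agent.Y928.LS

/-- the sum over the divisors that are used -/
lemma sum_D (C : ℝ) (hC : 1 ≤ C)
    (htail : ∀ k u N : ℕ, 1 ≤ u → N ≤ u + k →
      ∑ d ∈ Ioc u N, 1 / ((d : ℝ) * Nat.totient d) ≤ 4 * C / u)
    (z : ℝ) (K : ℕ) (hz1 : 1 ≤ z) (hK : 1 ≤ K) (Z : ℕ) (D : Finset ℕ)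
    (hD : D = (Icc 1 Z).filter (fun d : ℕ => z / (16 * K) < (d : ℝ))) :
    ∑ d ∈ D, 1 / ((d : ℝ) * Nat.totient d) ≤ 160 * C * K / z := by
  have hKR : (1 : ℝ) ≤ K := by exact_mod_cast hK
  obtain ⟨u, hu⟩ : ∃ u : ℕ, u = ⌊z / (16 * K)⌋₊ := ⟨_, rfl⟩
  have hu1 : z / (16 * K) < u + 1 := by rw [hu]; exact Nat.lt_floor_add_one _
  have hsub : D ⊆ Ioc u Z := by
    intro d hd
    rw [hD, mem_filter, mem_Icc] at hd
    rw [mem_Ioc]
    refine ⟨?_, hd.1.2⟩
    rw [hu, Nat.floor_lt (by positivity)]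
    exact hd.2
  have h1 : ∑ d ∈ D, 1 / ((d : ℝ) * Nat.totient d) ≤
      ∑ d ∈ Ioc u Z, 1 / ((d : ℝ) * Nat.totient d) :=
    Finset.sum_le_sum_of_subset_of_nonneg hsub (fun _ _ _ => by positivity)
  refine h1.trans ?_
  rcases Nat.eq_zero_or_pos u with h0 | hpos
  · rw [h0] at hu1 ⊢
    have h2 : ∑ d ∈ Ioc (0 : ℕ) Z, 1 / ((d : ℝ) * Nat.totient d) ≤ 1 + 4 * C := by
      rcases Nat.eq_zero_or_pos Z with hZ0 | hZpos
      · rw [hZ0]
        simp only [Ioc_self, sum_empty]
        linarith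
      · rw [← Finset.sum_Ioc_consecutive _ (Nat.zero_le 1) hZpos]
        have h3 := htail Z 1 Z le_rfl (by omega)
        simp only [Nat.cast_one, div_one] at h3
        have h4 : ∑ d ∈ Ioc (0 : ℕ) 1, 1 / ((d : ℝ) * Nat.totient d) = 1 := by
          rw [show Ioc (0 : ℕ) 1 = {1} by rfl, sum_singleton]
          simp
        rw [h4]
        linarith
    refine h2.trans ?_
    rw [le_div_iff₀ (by linarith)]
    rw [div_lt_iff₀ (by positivity)] at hu1
    push_cast at hu1
    have h3 : z ≤ 16 * K := by linarith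
    nlinarith
  · have h2 := htail Z u Z hpos (by omega)
    refine h2.trans ?_
    have huR : (1 : ℝ) ≤ u := by exact_mod_cast hpos
    rw [div_le_div_iff₀ (by linarith) (by linarith)]
    rw [div_lt_iff₀ (by positivity)] at hu1
    have h3 : z ≤ 32 * K * u := by nlinarith
    nlinarith [mul_le_mul_of_nonneg_left h3 (by linarith : 0 ≤ 4 * C)]

open Classical in
/-- **The principle.** -/
theorem principle : ∃ C : ℝ, 1 ≤ C ∧ ∀ (A : Finset ℕ) (Y R : ℝ) (K : ℕ), 0 ≤ Y → 1 ≤ R → 1 ≤ K →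
    (∀ d : ℕ, 1 ≤ d → ((A.filter (fun n => d ∣ n ∧ n ≡ 1 [MOD d.totient])).card : ℝ) ≤
      Y / (d * d.totient) + R) →
    ((A.filter (fun n => Leh n ∧ n.primeFactors.card ≤ K)).card : ℝ) ≤
      C * (R + Real.sqrt (R * Y * K)) := by
  obtain ⟨C, hC, htail⟩ := tail_sum
  refine ⟨162 * C, by linarith, ?_⟩
  intro A Y R K hY hR hK hA
  have hKR : (1 : ℝ) ≤ K := by exact_mod_cast hK
  have hs0 : 0 ≤ Real.sqrt (R * Y * K) := Real.sqrt_nonneg _
  rcases le_or_gt (Y * K) R with hc | hc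
  · -- few elements
    have h1 : ((A.filter (fun n => 1 ∣ n ∧ n ≡ 1 [MOD Nat.totient 1])).card : ℝ) ≤ Y + R := by
      have h0 := hA 1 le_rfl
      have e0 : Y / (((1 : ℕ) : ℝ) * ((Nat.totient 1 : ℕ) : ℝ)) + R = Y + R := by
        rw [Nat.totient_one]
        norm_num
      rwa [e0] at h0
    have h2 : ((A.filter (fun n => Leh n ∧ n.primeFactors.card ≤ K)).card : ℝ) ≤
        ((A.filter (fun n => 1 ∣ n ∧ n ≡ 1 [MOD Nat.totient 1])).card : ℝ) := by
      apply Nat.cast_le.2
      apply card_le_card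
      intro n hn
      rw [mem_filter] at hn ⊢
      refine ⟨hn.1, one_dvd _, ?_⟩
      rw [Nat.totient_one]
      exact Nat.modEq_one
    have h3 : Y ≤ Y * K := by nlinarith
    have h4 : 0 ≤ 162 * C * Real.sqrt (R * Y * K) := by positivity
    have h5 : 2 * R ≤ 162 * C * R := by nlinarith
    rw [mul_add]
    linarith
  · obtain ⟨z, hz⟩ : ∃ z : ℝ, z = Real.sqrt (Y * K / R) := ⟨_, rfl⟩
    have hR0 : 0 < R := by linarith
    have hz1 : 1 ≤ z := by
      rw [hz]
      apply Real.le_sqrt_of_sq_le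
      rw [one_pow, le_div_iff₀ hR0]
      linarith
    have hzz : z * z = Y * K / R := by rw [hz]; exact Real.mul_self_sqrt (by positivity)
    have hRz : R * z = Real.sqrt (R * Y * K) := by
      symm
      rw [Real.sqrt_eq_iff_mul_self_eq (by positivity) (by positivity)]
      have : R * z * (R * z) = R * R * (z * z) := by ring
      rw [this, hzz]
      field_simp
    obtain ⟨Z, hZ⟩ : ∃ Z : ℕ, Z = ⌊z⌋₊ := ⟨_, rfl⟩
    have hZz : (Z : ℝ) ≤ z := by rw [hZ]; exact Nat.floor_le (by linarith)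
    obtain ⟨D, hD⟩ : ∃ D : Finset ℕ, D = (Icc 1 Z).filter (fun d : ℕ => z / (16 * K) < (d : ℝ)) :=
      ⟨_, rfl⟩
    -- the covering
    have hcov : A.filter (fun n => Leh n ∧ n.primeFactors.card ≤ K) ⊆
        Icc 1 Z ∪ D.biUnion (fun d => A.filter (fun n => d ∣ n ∧ n ≡ 1 [MOD d.totient])) := by
      intro n hn
      obtain ⟨h1, h2, h3⟩ := mem_filter.mp hn
      rw [mem_union]
      by_cases hnz : n ≤ Z
      · left
        rw [mem_Icc]
        exact ⟨h2.1.le, hnz⟩
      · right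
        push Not at hnz
        have hzn : z ≤ n := by
          rw [hZ, Nat.floor_lt (by linarith)] at hnz
          exact hnz.le
        obtain ⟨k, hk2, hk, -⟩ := leh_k h2
        have hF := fam_leh n k K (by omega) hKR
        have hst : StL n k K n (2 * n) := ⟨n, h2, by have := h2.1; omega, le_rfl, hk,
          by exact_mod_cast h3, Or.inr ⟨rfl, rfl⟩⟩
        obtain ⟨d, hdn, hd1, hd2⟩ := dense hF hst hz1 hzn
        rw [mem_biUnion]
        have hn1 := h2.1
        have hdpos : 1 ≤ d := Nat.pos_of_dvd_of_pos hdn (by omega)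
        refine ⟨d, ?_, ?_⟩
        · rw [hD, mem_filter, mem_Icc]
          exact ⟨⟨hdpos, by rw [hZ]; exact Nat.le_floor hd2⟩, hd1⟩
        · rw [mem_filter]
          refine ⟨h1, hdn, ?_⟩
          have h4 : Nat.totient d ∣ n - 1 := (Nat.totient_dvd_of_dvd hdn).trans h2.2.2
          exact ((Nat.modEq_iff_dvd' (by omega)).mpr h4).symm
    have hcard : ((A.filter (fun n => Leh n ∧ n.primeFactors.card ≤ K)).card : ℝ) ≤
        Z + ∑ d ∈ D, (Y / (d * Nat.totient d) + R) := by
      have h1 := (card_le_card hcov).trans (card_union_le _ _)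
      have h2 : ((D.biUnion (fun d => A.filter (fun n => d ∣ n ∧
          n ≡ 1 [MOD d.totient]))).card : ℝ) ≤ ∑ d ∈ D, (Y / (d * Nat.totient d) + R) := by
        calc ((D.biUnion (fun d => A.filter (fun n => d ∣ n ∧ n ≡ 1 [MOD d.totient]))).card : ℝ) ≤
            ((∑ d ∈ D, (A.filter (fun n => d ∣ n ∧ n ≡ 1 [MOD d.totient])).card : ℕ) : ℝ) := by
              exact_mod_cast card_biUnion_le
          _ = ∑ d ∈ D, ((A.filter (fun n => d ∣ n ∧ n ≡ 1 [MOD d.totient])).card : ℝ) := by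
              push_cast; rfl
          _ ≤ _ := by
              refine Finset.sum_le_sum fun d hd => ?_
              rw [hD, mem_filter, mem_Icc] at hd
              exact hA d hd.1.1
      have h3 : ((A.filter (fun n => Leh n ∧ n.primeFactors.card ≤ K)).card : ℝ) ≤
          ((Icc 1 Z).card : ℝ) +
          ((D.biUnion (fun d => A.filter (fun n => d ∣ n ∧ n ≡ 1 [MOD d.totient]))).card : ℝ) := by
        exact_mod_cast h1
      rw [Nat.card_Icc, Nat.add_sub_cancel] at h3
      linarith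
    rw [Finset.sum_add_distrib, Finset.sum_const, nsmul_eq_mul] at hcard
    have hDcard : (D.card : ℝ) ≤ z := by
      have : D.card ≤ (Icc 1 Z).card := by rw [hD]; exact card_filter_le _ _
      rw [Nat.card_Icc, Nat.add_sub_cancel] at this
      have h1 : (D.card : ℝ) ≤ Z := by exact_mod_cast this
      linarith
    have hsum : ∑ d ∈ D, Y / (d * Nat.totient d) ≤ 160 * C * (R * z) := by
      have e1 : ∑ d ∈ D, Y / ((d : ℝ) * Nat.totient d) =
          Y * ∑ d ∈ D, 1 / ((d : ℝ) * Nat.totient d) := by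
        rw [Finset.mul_sum]
        refine Finset.sum_congr rfl fun d _ => ?_
        ring
      rw [e1]
      calc Y * ∑ d ∈ D, 1 / ((d : ℝ) * Nat.totient d) ≤ Y * (160 * C * K / z) :=
            mul_le_mul_of_nonneg_left (sum_D C hC htail z K hz1 hK Z D hD) hY
        _ = 160 * C * (R * (Y * K / R)) / z := by field_simp
        _ = 160 * C * (R * (z * z)) / z := by rw [hzz]
        _ = 160 * C * (R * z) := by field_simp
    rw [← hRz]
    have h5 : (D.card : ℝ) * R ≤ R * z := by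
      rw [mul_comm]
      exact mul_le_mul_of_nonneg_left hDcard hR0.le
    have h6 : z ≤ R * z := by nlinarith
    nlinarith [mul_le_mul_of_nonneg_right hC (by positivity : 0 ≤ R * z),
      mul_nonneg (by linarith : (0 : ℝ) ≤ C) hR0.le]

/-- one class modulo `q` in an interval -/
lemma ap_classes (x y q a d : ℕ) (hq : 1 ≤ q) (hd : 1 ≤ d) :
    (((((Ioc x (x + y)).filter (fun n => n ≡ a [MOD q])).filter
      (fun n => d ∣ n ∧ n ≡ 1 [MOD d.totient])).card : ℕ) : ℝ) ≤
      ((Nat.gcd (a * (a - 1)) q : ℕ) * (y : ℝ) / q) / (d * d.totient) + 1 := by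
  set S := ((Ioc x (x + y)).filter (fun n => n ≡ a [MOD q])).filter
      (fun n => d ∣ n ∧ n ≡ 1 [MOD d.totient]) with hS
  have hφ : 0 < d.totient := Nat.totient_pos.2 (by omega)
  rcases S.eq_empty_or_nonempty with h0 | ⟨n0, hn0⟩
  · rw [h0, card_empty, Nat.cast_zero]
    positivity
  · have hmem : ∀ n ∈ S, (x < n ∧ n ≤ x + y) ∧ n ≡ a [MOD q] ∧ d ∣ n ∧ n ≡ 1 [MOD d.totient] := by
      intro n hn
      rw [hS, mem_filter, mem_filter, mem_Ioc] at hn
      exact ⟨hn.1.1, hn.1.2, hn.2⟩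
    obtain ⟨h1, h2, h3, h4⟩ := hmem n0 hn0
    have hn1 : 1 ≤ n0 := by omega
    have h5 : d.totient ∣ n0 - 1 := (Nat.modEq_iff_dvd' hn1).1 h4.symm
    have hcop1 : Nat.Coprime n0 (n0 - 1) := by
      have := Nat.coprime_self_sub_right (n := n0) (m := 1) hn1
      rw [this]
      exact Nat.coprime_one_right _
    have hcop : Nat.Coprime d d.totient :=
      Nat.Coprime.coprime_dvd_left h3 (Nat.Coprime.coprime_dvd_right h5 hcop1)
    have h6 : d * d.totient ∣ n0 * (n0 - 1) := Nat.mul_dvd_mul h3 h5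
    have h7 : n0 * (n0 - 1) ≡ a * (a - 1) [MOD q] := by
      rcases Nat.eq_zero_or_pos a with ha | ha
      · subst ha
        rw [zero_mul]
        have : n0 * (n0 - 1) ≡ 0 * (n0 - 1) [MOD q] := h2.mul_right _
        rwa [zero_mul] at this
      · refine h2.mul ?_
        apply Nat.ModEq.add_right_cancel' 1
        rw [Nat.sub_add_cancel hn1, Nat.sub_add_cancel ha]
        exact h2
    have h8 : Nat.gcd (d * d.totient) q ∣ Nat.gcd (a * (a - 1)) q := by
      have h9 : Nat.gcd (n0 * (n0 - 1)) q = Nat.gcd (a * (a - 1)) q := h7.gcd_eq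
      rw [← h9]
      exact Nat.gcd_dvd_gcd_of_dvd_left q h6
    set g := Nat.gcd (a * (a - 1)) q with hg
    have hg0 : 0 < g := Nat.gcd_pos_of_pos_right _ hq
    have hgle : Nat.gcd (d * d.totient) q ≤ g := Nat.le_of_dvd hg0 h8
    set M := Nat.lcm (d * d.totient) q with hM
    have hm0 : 0 < d * d.totient := Nat.mul_pos hd hφ
    have hM0 : 0 < M := Nat.lcm_pos hm0 hq
    have hgM : d * d.totient * q ≤ g * M := by
      rw [← Nat.gcd_mul_lcm (d * d.totient) q]
      exact Nat.mul_le_mul_right _ hgle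
    have hcard := card_short M x y hM0 S (fun n hn => (hmem n hn).1) (by
      intro n hn n' hn'
      obtain ⟨_, b2, b3, b4⟩ := hmem n hn
      obtain ⟨_, c2, c3, c4⟩ := hmem n' hn'
      have e1 : n ≡ n' [MOD d * d.totient] :=
        (Nat.modEq_and_modEq_iff_modEq_mul hcop).mp
          ⟨((Nat.modEq_zero_iff_dvd).2 b3).trans ((Nat.modEq_zero_iff_dvd).2 c3).symm,
            b4.trans c4.symm⟩
      have e2 : n ≡ n' [MOD q] := b2.trans c2.symm
      rw [Nat.modEq_iff_dvd] at e1 e2 ⊢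
      rw [hM]
      have : ((Nat.lcm (d * d.totient) q : ℕ) : ℤ) = lcm ((d * d.totient : ℕ) : ℤ) (q : ℤ) := by
        rw [← Int.coe_lcm]
        rfl
      rw [this]
      exact lcm_dvd e1 e2)
    have h9 : ((y / M : ℕ) : ℝ) ≤ (y : ℝ) / M := Nat.cast_div_le
    have h10 : (S.card : ℝ) ≤ ((y / M + 1 : ℕ) : ℝ) := by exact_mod_cast hcard
    push_cast at h10
    have h11 : (y : ℝ) / M ≤ (g * (y : ℝ) / q) / (d * d.totient) := by
      have hMR : (0 : ℝ) < M := by exact_mod_cast hM0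
      have hqR : (0 : ℝ) < q := by exact_mod_cast hq
      have hdR : (0 : ℝ) < (d : ℝ) * d.totient := by exact_mod_cast hm0
      have hgMR : (d : ℝ) * d.totient * q ≤ g * M := by exact_mod_cast hgM
      rw [div_div, div_le_div_iff₀ hMR (by positivity)]
      have hy : (0 : ℝ) ≤ y := Nat.cast_nonneg y
      nlinarith [mul_le_mul_of_nonneg_left hgMR hy]
    linarith

open Classical in
/-- **Lehmer numbers in arithmetic progressions.** -/
theorem prog : ∃ C : ℝ, 1 ≤ C ∧ ∀ x y q a K : ℕ, 1 ≤ q → 1 ≤ K →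
    (((Ioc x (x + y)).filter (fun n => n ≡ a [MOD q] ∧ Leh n ∧ n.primeFactors.card ≤ K)).card : ℝ) ≤
      1 + C * Real.sqrt ((Nat.gcd (a * (a - 1)) q : ℕ) * (y : ℝ) * K / q) := by
  obtain ⟨C, hC, h⟩ := principle
  refine ⟨2 * C, by linarith, ?_⟩
  intro x y q a K hq hK
  have hqR : (0 : ℝ) < q := by exact_mod_cast hq
  have hKR : (1 : ℝ) ≤ K := by exact_mod_cast hK
  set g := Nat.gcd (a * (a - 1)) q with hg
  have hg1 : 1 ≤ g := Nat.gcd_pos_of_pos_right _ hq
  have hg1R : (1 : ℝ) ≤ g := by exact_mod_cast hg1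
  have hyR : (0 : ℝ) ≤ y := Nat.cast_nonneg y
  have hsplit : (Ioc x (x + y)).filter (fun n => n ≡ a [MOD q] ∧ Leh n ∧ n.primeFactors.card ≤ K) =
      ((Ioc x (x + y)).filter (fun n => n ≡ a [MOD q])).filter
        (fun n => Leh n ∧ n.primeFactors.card ≤ K) := by
    rw [filter_filter]
  rw [hsplit]
  have h1 := h ((Ioc x (x + y)).filter (fun n => n ≡ a [MOD q])) (g * (y : ℝ) / q) 1 K
    (by positivity) le_rfl hK (fun d hd => ap_classes x y q a d hq hd)
  have e : (1 : ℝ) * (g * (y : ℝ) / q) * K = g * (y : ℝ) * K / q := by ring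
  rw [e] at h1
  rcases le_or_gt 1 (g * (y : ℝ) * K / q) with hc | hc
  · have h2 : 1 ≤ Real.sqrt (g * (y : ℝ) * K / q) := Real.one_le_sqrt.2 hc
    nlinarith
  · rw [div_lt_one hqR] at hc
    have hyq : (y : ℝ) < q := by nlinarith [mul_le_mul hg1R hKR (by norm_num) (by positivity)]
    have hyq' : y < q := by exact_mod_cast hyq
    have hle : (((Ioc x (x + y)).filter (fun n => n ≡ a [MOD q])).filter
        (fun n => Leh n ∧ n.primeFactors.card ≤ K)).card ≤ 1 := by
      refine (card_le_card (filter_subset _ _)).trans ?_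
      have h3 := card_short q x y hq ((Ioc x (x + y)).filter (fun n => n ≡ a [MOD q]))
        (fun n hn => mem_Ioc.1 (mem_filter.1 hn).1)
        (fun n hn n' hn' => (mem_filter.1 hn).2.trans (mem_filter.1 hn').2.symm)
      rwa [Nat.div_eq_of_lt hyq', zero_add] at h3
    have hle' : ((((Ioc x (x + y)).filter (fun n => n ≡ a [MOD q])).filter
        (fun n => Leh n ∧ n.primeFactors.card ≤ K)).card : ℝ) ≤ 1 := by exact_mod_cast hle
    have : 0 ≤ 2 * C * Real.sqrt (g * (y : ℝ) * K / q) := by positivity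
    linarith

end Pool.Agent.L0h61.LA
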