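import Pool.Agent.L0h61.LA.AP

/-!
# Lehmer numbers in all residue classes modulo a prime
-/

set_option autoImplicit false

namespace Pool.Agent.L0h61.LA

open Finset
open Pool.Agent.H95R2.Leh Pool.Agent.Y928.LS

/-- the divisors that are used -/
noncomputable def DD (z : ℝ) (K : ℕ) : Finset ℕ :=
  open Classical in (Icc 1 ⌊z⌋₊).filter (fun d : ℕ => z / (16 * K) < (d : ℝ))

open Classical in
lemma mem_DD {z : ℝ} {K d : ℕ} : d ∈ DD z K ↔ (1 ≤ d ∧ d ≤ ⌊z⌋₊) ∧ z / (16 * K) < (d : ℝ) := by
  unfold DD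
  rw [mem_filter, mem_Icc]

open Classical in
/-- the covering -/
lemma cover (A : Finset ℕ) (K : ℕ) (z : ℝ) (hz1 : 1 ≤ z) (hK : 1 ≤ K) :
    ((A.filter (fun n => Leh n ∧ n.primeFactors.card ≤ K)).card : ℝ) ≤
      z + ∑ d ∈ DD z K, ((A.filter (fun n => d ∣ n ∧ n ≡ 1 [MOD d.totient])).card : ℝ) := by
  have hKR : (1 : ℝ) ≤ K := by exact_mod_cast hK
  have hZz : ((⌊z⌋₊ : ℕ) : ℝ) ≤ z := Nat.floor_le (by linarith)
  have hcov : A.filter (fun n => Leh n ∧ n.primeFactors.card ≤ K) ⊆
      Icc 1 ⌊z⌋₊ ∪ (DD z K).biUnion (fun d => A.filter (fun n => d ∣ n ∧ n ≡ 1 [MOD d.totient])) := by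
    intro n hn
    obtain ⟨h1, h2, h3⟩ := mem_filter.mp hn
    rw [mem_union]
    by_cases hnz : n ≤ ⌊z⌋₊
    · left
      rw [mem_Icc]
      exact ⟨h2.1.le, hnz⟩
    · right
      push Not at hnz
      have hzn : z ≤ n := by
        rw [Nat.floor_lt (by linarith)] at hnz
        exact hnz.le
      obtain ⟨k, hk2, hk, -⟩ := leh_k h2
      have hF := fam_leh n k K (by omega) hKR
      have hst : StL n k K n (2 * n) := ⟨n, h2, by have := h2.1; omega, le_rfl, hk,
        by exact_mod_cast h3, Or.inr ⟨rfl, rfl⟩⟩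
      obtain ⟨d, hdn, hd1, hd2⟩ := dense hF hst hz1 hzn
      rw [mem_biUnion]
      have hn1 := h2.1
      have hdpos : 1 ≤ d := Nat.pos_of_dvd_of_pos hdn (by omega)
      refine ⟨d, mem_DD.2 ⟨⟨hdpos, Nat.le_floor hd2⟩, hd1⟩, ?_⟩
      rw [mem_filter]
      refine ⟨h1, hdn, ?_⟩
      have h4 : Nat.totient d ∣ n - 1 := (Nat.totient_dvd_of_dvd hdn).trans h2.2.2
      exact ((Nat.modEq_iff_dvd' (by omega)).mpr h4).symm
  have h1 := (card_le_card hcov).trans (card_union_le _ _)
  have h2 : (((DD z K).biUnion (fun d => A.filter (fun n => d ∣ n ∧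
      n ≡ 1 [MOD d.totient]))).card : ℝ) ≤
      ∑ d ∈ DD z K, ((A.filter (fun n => d ∣ n ∧ n ≡ 1 [MOD d.totient])).card : ℝ) := by
    exact_mod_cast card_biUnion_le
  have h3 : ((A.filter (fun n => Leh n ∧ n.primeFactors.card ≤ K)).card : ℝ) ≤
      ((Icc 1 ⌊z⌋₊).card : ℝ) +
      (((DD z K).biUnion (fun d => A.filter (fun n => d ∣ n ∧ n ≡ 1 [MOD d.totient]))).card : ℝ) := by
    exact_mod_cast h1
  rw [Nat.card_Icc, Nat.add_sub_cancel] at h3
  linarith

/-- one class modulo `q` in an interval, with the exact common divisor -/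
lemma ap_classes' (x y q a d : ℕ) (hq : 1 ≤ q) (hd : 1 ≤ d) :
    (((((Ioc x (x + y)).filter (fun n => n ≡ a [MOD q])).filter
      (fun n => d ∣ n ∧ n ≡ 1 [MOD d.totient])).card : ℕ) : ℝ) ≤
      ((y : ℝ) / q) * ((Nat.gcd (d * d.totient) q : ℕ) * (1 / ((d : ℝ) * d.totient))) + 1 := by
  set S := ((Ioc x (x + y)).filter (fun n => n ≡ a [MOD q])).filter
      (fun n => d ∣ n ∧ n ≡ 1 [MOD d.totient]) with hS
  have hφ : 0 < d.totient := Nat.totient_pos.2 (by omega)
  rcases S.eq_empty_or_nonempty with h0 | ⟨n0, hn0⟩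
  · rw [h0, card_empty, Nat.cast_zero]
    positivity
  · have hmem : ∀ n ∈ S, (x < n ∧ n ≤ x + y) ∧ n ≡ a [MOD q] ∧ d ∣ n ∧ n ≡ 1 [MOD d.totient] := by
      intro n hn
      rw [hS, mem_filter, mem_filter, mem_Ioc] at hn
      exact ⟨hn.1.1, hn.1.2, hn.2⟩
    obtain ⟨h1, h2, h3, h4⟩ := hmem n0 hn0
    have hn1 : 1 ≤ n0 := by omega
    have h5 : d.totient ∣ n0 - 1 := (Nat.modEq_iff_dvd' hn1).1 h4.symm
    have hcop1 : Nat.Coprime n0 (n0 - 1) := by
      have := Nat.coprime_self_sub_right (n := n0) (m := 1) hn1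
      rw [this]
      exact Nat.coprime_one_right _
    have hcop : Nat.Coprime d d.totient :=
      Nat.Coprime.coprime_dvd_left h3 (Nat.Coprime.coprime_dvd_right h5 hcop1)
    set M := Nat.lcm (d * d.totient) q with hM
    have hm0 : 0 < d * d.totient := Nat.mul_pos hd hφ
    have hM0 : 0 < M := Nat.lcm_pos hm0 hq
    have hgM : Nat.gcd (d * d.totient) q * M = d * d.totient * q := Nat.gcd_mul_lcm _ _
    have hcard := card_short M x y hM0 S (fun n hn => (hmem n hn).1) (by
      intro n hn n' hn'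
      obtain ⟨_, b2, b3, b4⟩ := hmem n hn
      obtain ⟨_, c2, c3, c4⟩ := hmem n' hn'
      have e1 : n ≡ n' [MOD d * d.totient] :=
        (Nat.modEq_and_modEq_iff_modEq_mul hcop).mp
          ⟨((Nat.modEq_zero_iff_dvd).2 b3).trans ((Nat.modEq_zero_iff_dvd).2 c3).symm,
            b4.trans c4.symm⟩
      have e2 : n ≡ n' [MOD q] := b2.trans c2.symm
      rw [Nat.modEq_iff_dvd] at e1 e2 ⊢
      rw [hM]
      have : ((Nat.lcm (d * d.totient) q : ℕ) : ℤ) = lcm ((d * d.totient : ℕ) : ℤ) (q : ℤ) := by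
        rw [← Int.coe_lcm]
        rfl
      rw [this]
      exact lcm_dvd e1 e2)
    have h9 : ((y / M : ℕ) : ℝ) ≤ (y : ℝ) / M := Nat.cast_div_le
    have h10 : (S.card : ℝ) ≤ ((y / M + 1 : ℕ) : ℝ) := by exact_mod_cast hcard
    push_cast at h10
    have h11 : (y : ℝ) / M =
        ((y : ℝ) / q) * ((Nat.gcd (d * d.totient) q : ℕ) * (1 / ((d : ℝ) * d.totient))) := by
      have hMR : (0 : ℝ) < M := by exact_mod_cast hM0
      have hqR : (0 : ℝ) < q := by exact_mod_cast hq
      have hdR : (0 : ℝ) < (d : ℝ) * d.totient := by exact_mod_cast hm0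
      have hgMR : ((Nat.gcd (d * d.totient) q : ℕ) : ℝ) * M = (d : ℝ) * d.totient * q := by
        exact_mod_cast hgM
      rw [div_eq_iff hMR.ne']
      have : (y : ℝ) / q * (((Nat.gcd (d * d.totient) q : ℕ) : ℝ) * (1 / ((d : ℝ) * d.totient))) * M =
          (y : ℝ) / q * (1 / ((d : ℝ) * d.totient)) *
            (((Nat.gcd (d * d.totient) q : ℕ) : ℝ) * M) := by ring
      rw [this, hgMR]
      field_simp
    linarith

/-- the multiples of `r` -/
lemma sum_mult (C : ℝ) (hC : 1 ≤ C)
    (htail : ∀ k u N : ℕ, 1 ≤ u → N ≤ u + k →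
      ∑ d ∈ Ioc u N, 1 / ((d : ℝ) * Nat.totient d) ≤ 4 * C / u)
    (z : ℝ) (K r : ℕ) (hz1 : 1 ≤ z) (hK : 1 ≤ K) (hr : 2 ≤ r) (hrp : r.Prime) :
    ∑ d ∈ (DD z K).filter (fun d => r ∣ d), 1 / ((d : ℝ) * Nat.totient d) ≤
      160 * C * K / z * (1 / ((r : ℝ) - 1)) := by
  classical
  have hrR : (2 : ℝ) ≤ r := by exact_mod_cast hr
  have hKR : (1 : ℝ) ≤ K := by exact_mod_cast hK
  have hr1 : (0 : ℝ) < (r : ℝ) - 1 := by linarith
  rcases lt_or_ge z r with hzr | hzr
  · have : (DD z K).filter (fun d => r ∣ d) = ∅ := by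
      rw [filter_eq_empty_iff]
      intro d hd hrd
      obtain ⟨⟨h1, h2⟩, -⟩ := mem_DD.1 hd
      have h3 : r ≤ d := Nat.le_of_dvd h1 hrd
      have h4 : ((d : ℕ) : ℝ) ≤ z := by
        have : (d : ℝ) ≤ (⌊z⌋₊ : ℝ) := by exact_mod_cast h2
        exact this.trans (Nat.floor_le (by linarith))
      have h5 : (r : ℝ) ≤ d := by exact_mod_cast h3
      linarith
    rw [this, sum_empty]
    positivity
  · have hzr1 : 1 ≤ z / r := by rwa [le_div_iff₀ (by linarith), one_mul]
    have h1 := sum_D C hC htail (z / r) K hzr1 hK ⌊z⌋₊ _ rfl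
    calc ∑ d ∈ (DD z K).filter (fun d => r ∣ d), 1 / ((d : ℝ) * Nat.totient d)
        ≤ ∑ d ∈ (DD z K).filter (fun d => r ∣ d),
            1 / ((r : ℝ) * (r - 1)) * (1 / (((d / r : ℕ) : ℝ) * Nat.totient (d / r))) := by
          refine sum_le_sum fun d hd => ?_
          rw [mem_filter] at hd
          obtain ⟨m, rfl⟩ := hd.2
          have hm : 1 ≤ m := by
            have := (mem_DD.1 hd.1).1.1
            rcases Nat.eq_zero_or_pos m with h | h
            · subst h
              omega
            · exact h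
          rw [Nat.mul_div_cancel_left _ (by omega)]
          have hmR : (0 : ℝ) < m := by exact_mod_cast hm
          have hφm : (0 : ℝ) < m.totient := by exact_mod_cast Nat.totient_pos.2 (by omega)
          have h2 : (r - 1) * m.totient ≤ (r * m).totient := by
            rw [← Nat.totient_prime hrp]
            exact Nat.totient_super_multiplicative r m
          have h3 : ((r : ℝ) - 1) * m.totient ≤ (r * m).totient := by
            have : (((r - 1) * m.totient : ℕ) : ℝ) ≤ (((r * m).totient : ℕ) : ℝ) := by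
              exact_mod_cast h2
            rw [Nat.cast_mul, Nat.cast_sub (by omega), Nat.cast_one] at this
            exact this
          rw [div_mul_div_comm, one_mul]
          apply div_le_div_of_nonneg_left (by norm_num) (by positivity)
          push_cast
          have : (r : ℝ) * (r - 1) * (m * m.totient) = r * m * ((r - 1) * m.totient) := by ring
          rw [this]
          exact mul_le_mul_of_nonneg_left h3 (by positivity)
      _ = 1 / ((r : ℝ) * (r - 1)) * ∑ d ∈ (DD z K).filter (fun d => r ∣ d),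
            1 / (((d / r : ℕ) : ℝ) * Nat.totient (d / r)) := by rw [mul_sum]
      _ ≤ 1 / ((r : ℝ) * (r - 1)) * (160 * C * K / (z / r)) := by
          apply mul_le_mul_of_nonneg_left _ (by positivity)
          refine le_trans ?_ h1
          have hinj : Set.InjOn (fun d : ℕ => d / r) ((DD z K).filter (fun d => r ∣ d)) := by
            intro d hd e he hde
            rw [mem_coe, mem_filter] at hd he
            obtain ⟨m, rfl⟩ := hd.2
            obtain ⟨m', rfl⟩ := he.2
            simp only [Nat.mul_div_cancel_left _ (show 0 < r by omega)] at hde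
            rw [hde]
          rw [← sum_image (f := fun d : ℕ => 1 / ((d : ℝ) * Nat.totient d)) hinj]
          apply sum_le_sum_of_subset_of_nonneg
          · intro d hd
            rw [mem_image] at hd
            obtain ⟨e, he, rfl⟩ := hd
            rw [mem_filter] at he
            obtain ⟨⟨⟨h2, h3⟩, h4⟩, m, rfl⟩ := And.imp_left mem_DD.1 he
            rw [Nat.mul_div_cancel_left _ (by omega), mem_filter, mem_Icc]
            have hm : 1 ≤ m := by
              rcases Nat.eq_zero_or_pos m with h | h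
              · subst h
                omega
              · exact h
            refine ⟨⟨hm, le_trans (Nat.le_mul_of_pos_left m (by omega)) h3⟩, ?_⟩
            push_cast at h4
            rw [div_div, div_lt_iff₀ (by positivity)]
            rw [div_lt_iff₀ (by positivity)] at h4
            nlinarith
          · intro d _ _
            positivity
      _ = 160 * C * K / z * (1 / ((r : ℝ) - 1)) := by
          have hz0 : z ≠ 0 := by linarith
          have hr0 : (r : ℝ) ≠ 0 := by linarith
          field_simp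

lemma sum_biUnion_le (P : Finset ℕ) (f : ℕ → Finset ℕ) (g : ℕ → ℝ) (hg : ∀ d, 0 ≤ g d) :
    ∑ d ∈ P.biUnion f, g d ≤ ∑ j ∈ P, ∑ d ∈ f j, g d := by
  classical
  induction P using Finset.induction_on with
  | empty => simp
  | insert a s ha ih =>
    rw [biUnion_insert, sum_insert ha]
    have h1 := sum_union_inter (s₁ := f a) (s₂ := s.biUnion f) (f := g)
    have h2 := sum_nonneg (s := f a ∩ s.biUnion f) (f := g) fun d _ => hg d
    linarith

/-- the divisors `d` for which `q` divides `d φ(d)` -/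
lemma sum_q (C : ℝ) (hC : 1 ≤ C)
    (htail : ∀ k u N : ℕ, 1 ≤ u → N ≤ u + k →
      ∑ d ∈ Ioc u N, 1 / ((d : ℝ) * Nat.totient d) ≤ 4 * C / u)
    (z : ℝ) (K q : ℕ) (hz1 : 1 ≤ z) (hK : 1 ≤ K) (hq : q.Prime) :
    ∑ d ∈ (DD z K).filter (fun d => q ∣ d * d.totient), 1 / ((d : ℝ) * Nat.totient d) ≤
      160 * C * K / z * ((3 + Real.log z) / q) := by
  classical
  have hqR : (2 : ℝ) ≤ q := by exact_mod_cast hq.two_le
  have hKR : (1 : ℝ) ≤ K := by exact_mod_cast hK
  set P : Finset ℕ := (Icc 1 ⌊z⌋₊).filter (fun j => (1 + q * j).Prime) with hP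
  have hsub : (DD z K).filter (fun d => q ∣ d * d.totient) ⊆
      (DD z K).filter (fun d => q ∣ d) ∪
        P.biUnion (fun j => (DD z K).filter (fun d => 1 + q * j ∣ d)) := by
    intro d hd
    rw [mem_filter] at hd
    obtain ⟨⟨h1, h2⟩, -⟩ := mem_DD.1 hd.1
    rw [mem_union]
    by_cases hqd : q ∣ d
    · left
      exact mem_filter.2 ⟨hd.1, hqd⟩
    · right
      have h3 : q ∣ d.totient := (hq.dvd_mul.1 hd.2).resolve_left hqd
      have h4 : q ∣ d * ∏ p ∈ d.primeFactors, (p - 1) := by
        rw [← Nat.totient_mul_prod_primeFactors]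
        exact Dvd.dvd.mul_right h3 _
      have h5 := (hq.dvd_mul.1 h4).resolve_left hqd
      rw [hq.prime.dvd_finset_prod_iff] at h5
      obtain ⟨p, hp, hqp⟩ := h5
      have hpp := Nat.prime_of_mem_primeFactors hp
      have hpd := Nat.dvd_of_mem_primeFactors hp
      obtain ⟨j, hj⟩ := hqp
      have hp2 := hpp.two_le
      have hj1 : 1 ≤ j := by
        rcases Nat.eq_zero_or_pos j with h | h
        · rw [h, mul_zero] at hj
          omega
        · exact h
      have hpj : 1 + q * j = p := by omega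
      rw [mem_biUnion]
      refine ⟨j, ?_, ?_⟩
      · rw [hP, mem_filter, mem_Icc, hpj]
        refine ⟨⟨hj1, ?_⟩, hpp⟩
        have h6 : p ≤ d := Nat.le_of_dvd h1 hpd
        have h7 : j ≤ q * j := Nat.le_mul_of_pos_left j hq.pos
        omega
      · rw [mem_filter, hpj]
        exact ⟨hd.1, hpd⟩
  have hnn : ∀ d : ℕ, 0 ≤ 1 / ((d : ℝ) * Nat.totient d) := fun d => by positivity
  have hz0 : 0 < z := by linarith
  have hB : 0 ≤ 160 * C * K / z := by positivity
  calc ∑ d ∈ (DD z K).filter (fun d => q ∣ d * d.totient), 1 / ((d : ℝ) * Nat.totient d)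
      ≤ ∑ d ∈ (DD z K).filter (fun d => q ∣ d) ∪
          P.biUnion (fun j => (DD z K).filter (fun d => 1 + q * j ∣ d)),
          1 / ((d : ℝ) * Nat.totient d) :=
        sum_le_sum_of_subset_of_nonneg hsub fun d _ _ => hnn d
    _ ≤ ∑ d ∈ (DD z K).filter (fun d => q ∣ d), 1 / ((d : ℝ) * Nat.totient d) +
        ∑ d ∈ P.biUnion (fun j => (DD z K).filter (fun d => 1 + q * j ∣ d)),
          1 / ((d : ℝ) * Nat.totient d) := by
        rw [← sum_union_inter]
        have := sum_nonneg (s := (DD z K).filter (fun d => q ∣ d) ∩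
          P.biUnion (fun j => (DD z K).filter (fun d => 1 + q * j ∣ d)))
          (f := fun d : ℕ => 1 / ((d : ℝ) * Nat.totient d)) fun d _ => hnn d
        linarith
    _ ≤ 160 * C * K / z * (1 / ((q : ℝ) - 1)) +
        ∑ j ∈ P, 160 * C * K / z * (1 / ((q : ℝ) * j)) := by
        apply add_le_add (sum_mult C hC htail z K q hz1 hK hq.two_le hq)
        refine (sum_biUnion_le P _ _ hnn).trans ?_
        refine sum_le_sum fun j hj => ?_
        rw [hP, mem_filter, mem_Icc] at hj
        have h1 := sum_mult C hC htail z K (1 + q * j) hz1 hK hj.2.two_le hj.2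
        push_cast at h1
        rw [add_sub_cancel_left] at h1
        exact h1
    _ ≤ 160 * C * K / z * (2 / q) + 160 * C * K / z * ((1 + Real.log z) / q) := by
        apply add_le_add
        · apply mul_le_mul_of_nonneg_left _ hB
          rw [div_le_div_iff₀ (by linarith) (by linarith)]
          linarith
        · rw [← mul_sum]
          apply mul_le_mul_of_nonneg_left _ hB
          have h1 : ∑ j ∈ P, 1 / ((q : ℝ) * j) ≤ ∑ j ∈ Icc 1 ⌊z⌋₊, 1 / ((q : ℝ) * j) := by
            apply sum_le_sum_of_subset_of_nonneg (filter_subset _ _)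
            intro j _ _
            positivity
          refine h1.trans ?_
          have h2 : ∑ j ∈ Icc 1 ⌊z⌋₊, 1 / ((q : ℝ) * j) = ((harmonic ⌊z⌋₊ : ℚ) : ℝ) / q := by
            rw [harmonic_eq_sum_Icc]
            push_cast
            rw [sum_div]
            refine sum_congr rfl fun j _ => ?_
            rw [one_div, mul_inv, div_eq_mul_inv, mul_comm]
          rw [h2]
          have h3 := harmonic_le_one_add_log ⌊z⌋₊
          have h4 : Real.log (⌊z⌋₊ : ℝ) ≤ Real.log z := by
            have h5 : 1 ≤ ⌊z⌋₊ := Nat.le_floor (by simpa using hz1)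
            exact Real.log_le_log (by exact_mod_cast h5) (Nat.floor_le (by linarith))
          apply div_le_div_of_nonneg_right _ (by linarith)
          linarith
    _ = 160 * C * K / z * ((3 + Real.log z) / q) := by ring

open Classical in
/-- **Lehmer numbers in all residue classes modulo a prime.** -/
theorem prime_classes : ∃ C : ℝ, 1 ≤ C ∧ ∀ x y q a K : ℕ, q.Prime → 1 ≤ K →
    (((Ioc x (x + y)).filter (fun n => n ≡ a [MOD q] ∧ Leh n ∧ n.primeFactors.card ≤ K)).card : ℝ) ≤
      1 + C * Real.sqrt ((y : ℝ) * K * (3 + Real.log ((y : ℝ) * K + 1)) / q) := by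
  obtain ⟨C, hC, htail⟩ := tail_sum
  refine ⟨2 + 320 * C, by linarith, ?_⟩
  intro x y q a K hq hK
  have hq1 : 1 ≤ q := hq.one_le
  have hqR : (1 : ℝ) ≤ q := by exact_mod_cast hq1
  have hKR : (1 : ℝ) ≤ K := by exact_mod_cast hK
  have hyR : (0 : ℝ) ≤ y := Nat.cast_nonneg y
  have hsplit : (Ioc x (x + y)).filter (fun n => n ≡ a [MOD q] ∧ Leh n ∧ n.primeFactors.card ≤ K) =
      ((Ioc x (x + y)).filter (fun n => n ≡ a [MOD q])).filter
        (fun n => Leh n ∧ n.primeFactors.card ≤ K) := by
    rw [filter_filter]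
  rw [hsplit]
  obtain ⟨L, hL⟩ : ∃ L : ℝ, L = 3 + Real.log ((y : ℝ) * K + 1) := ⟨_, rfl⟩
  rw [← hL]
  have hyK0 : (0 : ℝ) ≤ (y : ℝ) * K := by positivity
  have hlog0 : 0 ≤ Real.log ((y : ℝ) * K + 1) := Real.log_nonneg (by linarith)
  have hL3 : 3 ≤ L := by rw [hL]; linarith
  have hs0 : 0 ≤ Real.sqrt ((y : ℝ) * K * L / q) := Real.sqrt_nonneg _
  rcases lt_or_ge y q with hyq | hyq
  · have hle : (((Ioc x (x + y)).filter (fun n => n ≡ a [MOD q])).filter
        (fun n => Leh n ∧ n.primeFactors.card ≤ K)).card ≤ 1 := by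
      refine (card_le_card (filter_subset _ _)).trans ?_
      have h3 := card_short q x y hq1 ((Ioc x (x + y)).filter (fun n => n ≡ a [MOD q]))
        (fun n hn => mem_Ioc.1 (mem_filter.1 hn).1)
        (fun n hn n' hn' => (mem_filter.1 hn).2.trans (mem_filter.1 hn').2.symm)
      rwa [Nat.div_eq_of_lt hyq, zero_add] at h3
    have hle' : ((((Ioc x (x + y)).filter (fun n => n ≡ a [MOD q])).filter
        (fun n => Leh n ∧ n.primeFactors.card ≤ K)).card : ℝ) ≤ 1 := by exact_mod_cast hle
    have : 0 ≤ (2 + 320 * C) * Real.sqrt ((y : ℝ) * K * L / q) := by positivity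
    linarith
  · have hyqR : (q : ℝ) ≤ y := by exact_mod_cast hyq
    obtain ⟨z, hz⟩ : ∃ z : ℝ, z = Real.sqrt ((y : ℝ) * K * L / q) := ⟨_, rfl⟩
    rw [← hz]
    have hyK : (q : ℝ) ≤ y * K := by nlinarith
    have hyKL : (q : ℝ) ≤ y * K * L := by nlinarith
    have hz1 : 1 ≤ z := by
      rw [hz]
      apply Real.le_sqrt_of_sq_le
      rw [one_pow, le_div_iff₀ (by linarith)]
      linarith
    have hzz : z * z = (y : ℝ) * K * L / q := by
      rw [hz]
      exact Real.mul_self_sqrt (by positivity)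
    have hz0 : 0 < z := by linarith
    -- the logarithm of `z`
    have hlogz : 4 + Real.log z ≤ 2 * L := by
      have h1 : z ≤ 2 * ((y : ℝ) * K + 1) := by
        have h2 : L ≤ 3 + (y * K) := by
          rw [hL]
          have := Real.log_le_sub_one_of_pos (show 0 < (y : ℝ) * K + 1 by linarith)
          linarith
        have h3 : z * z ≤ (y : ℝ) * K * L := by
          rw [hzz]
          exact div_le_self (by positivity) hqR
        have h4 : (y : ℝ) * K * L ≤ y * K * (3 + y * K) := mul_le_mul_of_nonneg_left h2 hyK0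
        nlinarith
      have h2 : Real.log z ≤ Real.log 2 + Real.log ((y : ℝ) * K + 1) := by
        rw [← Real.log_mul (by norm_num) (by linarith)]
        exact Real.log_le_log hz0 h1
      have h3 : Real.log 2 < 1 := by
        have := Real.log_two_lt_d9
        linarith
      rw [hL]
      linarith
    have hcov := cover ((Ioc x (x + y)).filter (fun n => n ≡ a [MOD q])) K z hz1 hK
    have hDcard : ((DD z K).card : ℝ) ≤ z := by
      have h1 : (DD z K).card ≤ ⌊z⌋₊ := by
        have h2 : DD z K ⊆ Icc 1 ⌊z⌋₊ := fun d hd => mem_Icc.2 (mem_DD.1 hd).1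
        have := card_le_card h2
        rwa [Nat.card_Icc, Nat.add_sub_cancel] at this
      have h3 : ((DD z K).card : ℝ) ≤ (⌊z⌋₊ : ℝ) := by exact_mod_cast h1
      exact h3.trans (Nat.floor_le hz0.le)
    have hterm : ∀ d ∈ DD z K, ((((Ioc x (x + y)).filter (fun n => n ≡ a [MOD q])).filter
        (fun n => d ∣ n ∧ n ≡ 1 [MOD d.totient])).card : ℝ) ≤
        ((y : ℝ) / q) * (1 / ((d : ℝ) * d.totient) +
          q * (if q ∣ d * d.totient then 1 / ((d : ℝ) * d.totient) else 0)) + 1 := by
      intro d hd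
      have hd1 := (mem_DD.1 hd).1.1
      have h1 := ap_classes' x y q a d hq1 hd1
      refine h1.trans ?_
      have hnn : 0 ≤ 1 / ((d : ℝ) * d.totient) := by positivity
      have hyq0 : 0 ≤ (y : ℝ) / q := by positivity
      apply add_le_add_left (α := ℝ) _ 1 |> fun h => h
      apply mul_le_mul_of_nonneg_left _ hyq0
      by_cases hdv : q ∣ d * d.totient
      · rw [if_pos hdv]
        have h2 : Nat.gcd (d * d.totient) q ≤ q := Nat.gcd_le_right _ hq1
        have h3 : ((Nat.gcd (d * d.totient) q : ℕ) : ℝ) ≤ q := by exact_mod_cast h2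
        have h4 := mul_le_mul_of_nonneg_right h3 hnn
        linarith
      · rw [if_neg hdv]
        have h2 : Nat.gcd (d * d.totient) q = 1 :=
          Nat.Coprime.symm ((Nat.Prime.coprime_iff_not_dvd hq).2 hdv)
        rw [h2]
        simp
    have hsum : ∑ d ∈ DD z K, ((((Ioc x (x + y)).filter (fun n => n ≡ a [MOD q])).filter
        (fun n => d ∣ n ∧ n ≡ 1 [MOD d.totient])).card : ℝ) ≤
        ((y : ℝ) / q) * (160 * C * K / z + q * (160 * C * K / z * ((3 + Real.log z) / q))) +
          (DD z K).card := by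
      refine (sum_le_sum hterm).trans ?_
      rw [sum_add_distrib, ← mul_sum, sum_add_distrib, ← mul_sum, ← sum_filter, sum_const,
        nsmul_eq_mul, mul_one]
      have h1 := sum_D C hC htail z K hz1 hK ⌊z⌋₊ (DD z K) (by
        unfold DD
        rfl)
      have h2 := sum_q C hC htail z K q hz1 hK hq
      have hyq0 : 0 ≤ (y : ℝ) / q := by positivity
      have hq0 : (0 : ℝ) ≤ q := by linarith
      have h3 := mul_le_mul_of_nonneg_left h2 hq0
      have h4 := mul_le_mul_of_nonneg_left (add_le_add h1 h3) hyq0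
      linarith
    have hfin : ((y : ℝ) / q) * (160 * C * K / z + q * (160 * C * K / z * ((3 + Real.log z) / q))) ≤
        320 * C * z := by
      have h1 : ((y : ℝ) / q) * (160 * C * K / z +
          q * (160 * C * K / z * ((3 + Real.log z) / q))) =
          160 * C * (((y : ℝ) * K / q) * (4 + Real.log z)) / z := by
        have hq0 : (q : ℝ) ≠ 0 := by linarith
        field_simp
        ring
      rw [h1, div_le_iff₀ hz0]
      have h2 : ((y : ℝ) * K / q) * (4 + Real.log z) ≤ ((y : ℝ) * K / q) * (2 * L) :=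
        mul_le_mul_of_nonneg_left hlogz (by positivity)
      have h3 : ((y : ℝ) * K / q) * (2 * L) = 2 * (z * z) := by
        rw [hzz]
        ring
      have h4 := mul_le_mul_of_nonneg_left h2 (by linarith : 0 ≤ 160 * C)
      rw [h3] at h4
      linarith
    linarith

end Pool.Agent.L0h61.LA
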